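import Pool.Agent.Q255.EP.Fin
import Pool.Agent.Q255.EP.Stm4
import Pool.Agent.Q13.EP.REC
import Pool.Agent.Q190.EP.Eng
import Pool.Agent.Q14.EP.Fin
import Pool.Agent.Q96.EP.Lawe
import Pool.Agent.Q14.EP.Cor
import Pool.Agent.Q14.EP.Col

/-!
# The correlation of the Moebius function with shifted primes at a given amount of information

Let `f` be completely multiplicative with the values `1`, `-1` at the primes, the joint law of the signs `f(p)`
arbitrary; `I(x)` is the relative entropy (Kullback-Leibler divergence) of the law of the signs `f(p)`, `p ≤ x`,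
to independent fair signs.

1. If `I(x) ≤ x^{δ + o(1)}`, then almost surely `∑_{n ≤ X} μ(n) f(n) Λ(n - h) = O(X^{(1+δ)/2 + ε})`, for all integers `h`
with `|h| ≤ X^A` at once, also after any change of `f` at finitely many primes.
2. This is optimal for every `0 < δ < 1` and every shift `h`: for one law with `I(x) = O(x^δ)` the mean of the sum is at
least `X^{(1+δ)/2 - ε}` for all large `X`.
-/

set_option autoImplicit false

namespace Pool.Agent.Results.MP_0bfb7f_nt.CorrelationAtGivenInformation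

open Finset Filter Topology MeasureTheory

/-- the sign at the prime with the number `k` (`2` has the number `0`) -/
def sign (ω : ℕ → Bool) (k : ℕ) : ℝ := if ω k then 1 else -1

/-- `f(n) = ∏_p f(p)^{v_p(n)}`, the completely multiplicative function with the sign `ω k` at the prime with the
number `k` (`Nat.count Nat.Prime p` is the number of the primes less than `p`) -/
noncomputable def f (ω : ℕ → Bool) (n : ℕ) : ℝ :=
  n.factorization.prod fun p j => sign ω (Nat.count Nat.Prime p) ^ j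

/-- `I(x)`: the relative entropy `∑_s q(s) log (2^n q(s))` of the law `q` of the signs at the `n = π(x)` primes
`p ≤ x` to independent fair signs, in nats -/
noncomputable def information (ν : Measure (ℕ → Bool)) (x : ℕ) : ℝ :=
  ∑ s : Fin (Nat.primeCounting x) → Bool, ν.real {ω | ∀ k : Fin (Nat.primeCounting x), ω k = s k} *
    Real.log (2 ^ Nat.primeCounting x *
      ν.real {ω | ∀ k : Fin (Nat.primeCounting x), ω k = s k})

/-- `I(x) ≤ x^{δ + o(1)}` -/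
def InformationExponentAtMost (ν : Measure (ℕ → Bool)) (δ : ℝ) : Prop :=
  ∀ ε : ℝ, 0 < ε → ∀ᶠ x : ℕ in atTop, information ν x ≤ (x : ℝ) ^ (δ + ε)

/-- `S_h(X) = ∑_{n ≤ X} μ(n) g(n) Λ(n - h)`, with `Λ(m) = 0` for `m ≤ 0`; for `g = 1`, `h = 1` it is the sum `S(X)` of
the problem -/
noncomputable def S (g : ℕ → ℝ) (h : ℤ) (X : ℕ) : ℝ :=
  ∑ n ∈ Finset.Icc 1 X, ((ArithmeticFunction.moebius n : ℤ) : ℝ) * g n *
    ArithmeticFunction.vonMangoldt ((n : ℤ) - h).toNat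

/-- the sums are `O(X^{σ+ε})`, uniformly for `|h| ≤ X^A` -/
def AllShifts (g : ℕ → ℝ) (σ : ℝ) : Prop :=
  ∀ (A : ℕ) (ε : ℝ), 0 < ε → ∃ C : ℝ, ∀ (X : ℕ) (h : ℤ), 1 ≤ X → |h| ≤ (X : ℤ) ^ A →
    |S g h X| ≤ C * (X : ℝ) ^ (σ + ε)

open Pool.Agent.Q255.EP

theorem info_eq (ν : Measure (ℕ → Bool)) [IsProbabilityMeasure ν] (x : ℕ) :
    information ν x = Pool.Agent.Q255.IR.D ν (Nat.primeCounting x) := D_eq_sum ν _

theorem IL_of {ν : Measure (ℕ → Bool)} [IsProbabilityMeasure ν] {δ : ℝ}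
    (h : InformationExponentAtMost ν δ) : IL ν δ := by
  intro ε hε
  filter_upwards [h ε hε] with x hx
  rwa [info_eq] at hx

section Main

variable (hC : S_COR) (hL : S_COL)

include hC in
theorem upper (ν : Measure (ℕ → Bool)) [IsProbabilityMeasure ν] {δ : ℝ} (hδ : 0 ≤ δ) (hν : IL ν δ) :
    ∀ᵐ ω ∂ν, ∀ ω' : ℕ → Bool, {k | ω' k ≠ ω k}.Finite → AllShifts (f ω') ((1 + δ) / 2) :=
  ae_fin Pool.Agent.Q14.EP.t_FIN hδ (fun ν' _ hν' => hC ν' δ hδ hν') ν hν

include hL in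
theorem lower {δ : ℝ} (hδ0 : 0 < δ) (hδ : δ < 1) :
    ∃ ν : Measure (ℕ → Bool), IsProbabilityMeasure ν ∧
      (∃ C : ℝ, ∀ x : ℕ, 1 ≤ x → information ν x ≤ C * (x : ℝ) ^ δ) ∧
      ∀ (h : ℤ) (ε : ℝ), 0 < ε → ∀ᶠ X : ℕ in atTop,
        (X : ℝ) ^ ((1 + δ) / 2 - ε) ≤ ∫ ω, S (f ω) h X ∂ν := by
  have hd : ∀ k, |(-(Pool.Agent.Q255.IC.pr k : ℝ) ^ ((δ - 1) / 2))| ≤ 1 := by
    intro k
    rw [abs_neg, abs_of_nonneg (by positivity)]
    exact Real.rpow_le_one_of_one_le_of_nonpos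
      (by exact_mod_cast (Pool.Agent.Q255.IC.pr_prime k).one_lt.le) (by linarith)
  obtain ⟨ν, hν, hD, hexp⟩ :=
    Pool.Agent.Q96.EP.lawe (fun k => -(Pool.Agent.Q255.IC.pr k : ℝ) ^ ((δ - 1) / 2)) hd
  refine ⟨ν, hν, ⟨δ⁻¹, fun x _ => ?_⟩, fun h ε hε => ?_⟩
  · rw [info_eq]
    exact (hD _).trans (sum_pr_le hδ0 hδ.le x)
  · exact hL ν ((1 + δ) / 2) (by linarith) (by linarith) (fun s => by
      rw [hexp s, show (1 + δ) / 2 - 1 = (δ - 1) / 2 by ring]) h ε hε

end Main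

/-- **The correlation of `μ f` with shifted primes at a given amount of information.**

1. `I(x) ≤ x^{δ+o(1)}`, `δ ≥ 0`: almost surely, for every `f'` equal to `f` at all but finitely many primes,
`S_h(X) = O(X^{(1+δ)/2+ε})` uniformly for `|h| ≤ X^A`.
2. For every `0 < δ < 1` there is a law with `I(x) ≤ C x^δ` such that for every `h` and `ε > 0` the mean of `S_h(X)` is at
least `X^{(1+δ)/2-ε}` for all large `X`. -/
theorem result :
    (∀ (ν : Measure (ℕ → Bool)) [IsProbabilityMeasure ν] (δ : ℝ), 0 ≤ δ → InformationExponentAtMost ν δ →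
      ∀ᵐ ω ∂ν, ∀ ω' : ℕ → Bool, {k | ω' k ≠ ω k}.Finite → AllShifts (f ω') ((1 + δ) / 2)) ∧
    (∀ δ : ℝ, 0 < δ → δ < 1 → ∃ ν : Measure (ℕ → Bool), IsProbabilityMeasure ν ∧
      (∃ C : ℝ, ∀ x : ℕ, 1 ≤ x → information ν x ≤ C * (x : ℝ) ^ δ) ∧
      ∀ (h : ℤ) (ε : ℝ), 0 < ε → ∀ᶠ X : ℕ in atTop,
        (X : ℝ) ^ ((1 + δ) / 2 - ε) ≤ ∫ ω, S (f ω) h X ∂ν) :=
  ⟨fun ν _ _ hδ hν => upper (Pool.Agent.Q14.EP.cor_all Pool.Agent.Q190.EP.t_ENG) ν hδ (IL_of hν),
    fun _ h0 h1 => lower Pool.Agent.Q14.EP.col h0 h1⟩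

end Pool.Agent.Results.MP_0bfb7f_nt.CorrelationAtGivenInformation
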