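import Pool.Agent.Q270.CC.Fin

/-!
# Multiplicative functions against shifted primes: random signs at a thin set of primes decide for every
completion

Let `P` be a set of primes and `e p`, `p ∈ P`, random signs with an ARBITRARY joint law. A completion is any
multiplicative function `f`, `|f| ≤ 1`, with `f(p) = e p` for the primes `p` of `P` (`Comp P e f`); all its values at the
other prime powers are arbitrary. Completions are for instance the Moebius function or the Liouville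
function with its signs at the primes of `P` replaced by the `e p`. `ent μ e S` is the Shannon entropy (in nats)
of the signs `e p`, `p ∈ S`, `pr P x` the set of the primes of `P` up to `x`, `ms P y z` the sum of `1 / p` over the
primes `y < p ≤ z` of `P`. `T` is a finite set of forms `a n + b`, `a ≥ 1`, and `q0 = (c, d)` a form, all of them
pairwise not proportional, `vT T n` the product of the values of the von Mangoldt function at the forms of
`T` and `cf f T q0 w N = ∑_{n ≤ N} w(n) ∏_T Λ(a n + b) f(c n + d)`, `|w| ≤ 1`. (Q1: `T = {n}`, `q0 = n + 1`, `w = 1`.)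
Let the mass of `P` in `((log N)^2, N]` tend to infinity in 1 and 2.

1. In mean, uniformly in the law, in the weight and in ALL completions: for all `ε > 0` there is `η > 0` such
   that for large `N`, if the signs at the primes `≤ t` of `P` have entropy at least `(1 - η)` times the maximum
   for `Y ≤ t ≤ 2 A N`, there is a random variable `R` with `E R ≤ ε N` and `|cf f T q0 w N| ≤ R` for all
   completions `f`.
2. Almost surely `sup_f |cf f T q0 w N| = o(N)`, the supremum over all completions `f`, for all `T`, `q0` at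
   once, if the sum of `(log 2 - H(e p | e q, q < p)) / p` over `P` converges, or
   `H(P ∩ [1, x]) ≥ |P ∩ [1, x]| (log 2 - (log log x)^(-1-κ))` for large `x`, or
   `|E(e p | e q, q < p)| ≤ η p → 0`; for instance for independent fair signs.
3. The entropy condition in 1 is exact: for every `η > 0` some law has entropy `≥ (1 - η) |S| log 2` for all
   finite sets `S` of primes and completions with `E |cf| ≥ η ∑_{n ≤ N} ∏_T Λ(a n + b)` (`w = 1`).
4. If `∑_P 1/p < ∞` then for all `q0` and `|T| ≤ 1` (coprime coefficients) there are a weight and `c > 0` such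
   that for large `N` and EVERY choice of the signs some completion has `|cf| ≥ c N`.

Proof: `c n + d = b s`, `s` the product of the primes `p > y` of `P` with `p ∥ c n + d`; then `f(c n + d) = f(b) f(s)` and
the sum over `n` with given `b` is decomposed according to the largest prime factor of `s`, whose sign is
split into a martingale difference and its conditional mean (small in mean square by Pinsker's inequality
for one bit and the chain rule). The martingale parts are summed over `b` with absolute values.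
-/

set_option autoImplicit false

namespace Pool.Agent.Results.MP_0bfb7f_nt.EveryCompletion

open Finset Filter Topology MeasureTheory
open Pool.Agent.Q270.EN Pool.Agent.Q270.CC

theorem result :
    -- 1. in mean, uniformly in the law, the weight and the completions
    (∀ P : Set ℕ, Tendsto (fun N : ℕ => ms P ⌈(Real.log N) ^ 2⌉₊ N) atTop atTop →
      ∀ (A : ℕ) (T : Finset (ℕ × ℕ)) (q0 : ℕ × ℕ), Adm A A (T ∪ {q0}) → q0 ∉ T →
      ∀ ε : ℝ, 0 < ε → ∃ η : ℝ, 0 < η ∧ ∀ Y : ℕ, ∀ᶠ N : ℕ in atTop,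
      ∀ (Ω : Type) [MeasurableSpace Ω] (μ : Measure Ω) [IsProbabilityMeasure μ] (e : ℕ → Ω → ℝ),
      Sgn e → (∀ t, Y ≤ t → t ≤ 2 * A * N →
        (1 - η) * ((pr P t).card * Real.log 2) ≤ ent μ e (pr P t)) →
      ∀ w : ℕ → ℂ, (∀ n, ‖w n‖ ≤ 1) → ∃ R : Ω → ℝ, Measurable R ∧ (∀ ω, 0 ≤ R ω) ∧
        Integrable R μ ∧ ∫ ω, R ω ∂μ ≤ ε * N ∧
        ∀ ω, ∀ f : ℕ → ℂ, Comp P (fun p => e p ω) f → ‖cf f T q0 w N‖ ≤ R ω) ∧
    -- 2. almost surely, uniformly in the completions
    (∀ (Ω : Type) [MeasurableSpace Ω] (μ : Measure Ω) [IsProbabilityMeasure μ] (e : ℕ → Ω → ℝ),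
      Sgn e → ∀ P : Set ℕ, Tendsto (fun N : ℕ => ms P ⌈(Real.log N) ^ 2⌉₊ N) atTop atTop →
      ((Summable fun p : {p : ℕ // p.Prime ∧ p ∈ P} => dd μ e (pr P p) p / (p : ℕ)) ∨
        (∃ κ : ℝ, 0 < κ ∧ ∀ᶠ x : ℕ in atTop, (pr P x).card * (Real.log 2 -
          1 / (Real.log (Real.log x)) ^ (1 + κ)) ≤ ent μ e (pr P x)) ∨
        ∃ η : ℕ → ℝ, Tendsto η atTop (𝓝 0) ∧ ∀ p, p.Prime → p ∈ P → BiasLe μ e P p (η p)) →
      ∀ w : ℕ → ℂ, (∀ n, ‖w n‖ ≤ 1) →
      ∀ᵐ ω ∂μ, ∀ (A : ℕ) (T : Finset (ℕ × ℕ)) (q0 : ℕ × ℕ), Adm A A (T ∪ {q0}) → q0 ∉ T →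
        ∀ ε : ℝ, 0 < ε → ∃ N₀ : ℕ, ∀ N : ℕ, N₀ < N → ∀ f : ℕ → ℂ, Comp P (fun p => e p ω) f →
          ‖cf f T q0 w N‖ ≤ ε * N) ∧
    -- 3. the entropy condition is exact
    (∀ η : ℝ, 0 < η → η < 1 → ∃ (Ω : Type) (_ : MeasurableSpace Ω)
      (μ : Measure Ω) (_ : IsProbabilityMeasure μ) (e : ℕ → Ω → ℝ), Sgn e ∧
      (∀ S : Finset ℕ, (1 - η) * (S.card * Real.log 2) ≤ ent μ e S) ∧
      ∀ (P : Set ℕ) (T : Finset (ℕ × ℕ)) (q0 : ℕ × ℕ), 1 ≤ q0.1 → ∃ F : Ω → ℕ → ℂ,
        (∀ ω, Comp P (fun p => e p ω) (F ω)) ∧ ∀ N : ℕ,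
        η * ∑ n ∈ Icc 1 N, vT T n ≤ ∫ ω, ‖cf (F ω) T q0 (fun _ => 1) N‖ ∂μ) ∧
    -- 4. sets of primes with a convergent sum
    (∀ P : Set ℕ, (Summable fun p : {p : ℕ // p.Prime ∧ p ∈ P} => 1 / ((p : ℕ) : ℝ)) →
      ∀ (A : ℕ) (T : Finset (ℕ × ℕ)) (q0 : ℕ × ℕ), Adm A A (T ∪ {q0}) → q0 ∉ T → T.card ≤ 1 →
      (∀ q ∈ T, Nat.Coprime q.1 q.2) → ∃ (w : ℕ → ℂ) (c : ℝ), (∀ n, ‖w n‖ ≤ 1) ∧ 0 < c ∧
      ∀ᶠ N : ℕ in atTop, ∀ s : ℕ → ℝ, (∀ p, s p = 1 ∨ s p = -1) →
        ∃ f : ℕ → ℂ, Comp P s f ∧ c * N ≤ ‖cf f T q0 w N‖) := by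
  refine ⟨?_, ?_, ?_, ?_⟩
  · intro P hP A T q0 hTU hq0 ε hε
    exact meanC P hP A T q0 hTU hq0 ε hε
  · intro Ω _ μ _ e he P hP hcond w hw
    exact asC_all μ e he P hP hcond w hw
  · exact sharpC
  · intro P hs A T q0 hTU hq0 hT1 hcop
    exact necC P hs A T q0 hTU hq0 hT1 hcop

end Pool.Agent.Results.MP_0bfb7f_nt.EveryCompletion
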