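import Pool.Agent.Q259.AS.FnA

/-!
# Correlations of the Möbius function with shifted primes and with arbitrary sequences: shifts near the dilates of
typical points

Definitions used (`Pool.Agent.Q259.AS`): `SelfSim μ`: `μ` is a self-similar measure `μ = ∑ p i * (f i)_* μ` of
finitely many maps `f i x = ρ i * x + t i` with `0 < |ρ i| < 1` and `p i > 0`, not all with the same fixed point (that
is, `μ` is not a point mass; overlaps are allowed and the ratios are arbitrary); `FourLp μ`: the Fourier transform of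
`μ` belongs to `L^q` for some `q < ∞` (for instance because it is `O(|t| ^ (-δ))` for some `δ > 0`).
-/

set_option autoImplicit false

namespace Pool.Agent.Results.MP_0bfb7f_nt.TypicalShifts

open MeasureTheory Filter Finset Pool.Agent.Q259.AS

/-- The Möbius function, with the value `0` at the integers `m ≤ 0`. -/
noncomputable def mob (m : ℤ) : ℂ := if 1 ≤ m then ((ArithmeticFunction.moebius m.toNat : ℤ) : ℂ) else 0

/-- The Liouville function, with the value `0` at the integers `m ≤ 0`. -/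
noncomputable def lam (m : ℤ) : ℂ := if 1 ≤ m then (-1) ^ ArithmeticFunction.cardFactors m.toNat else 0

lemma mob_eq : mob = Pool.Agent.H373R2.T7.exI (fun n => ((Pool.Agent.H373R2.T7.muR n : ℝ) : ℂ)) := by
  funext m
  unfold mob Pool.Agent.H373R2.T7.exI Pool.Agent.H373R2.T7.muR
  split_ifs
  · push_cast
    rfl
  · rfl

lemma lam_eq : lam = Pool.Agent.H373R2.T7.exI (fun n => ((Pool.Agent.Y885.laR n : ℝ) : ℂ)) := by
  funext m
  unfold lam Pool.Agent.H373R2.T7.exI Pool.Agent.Y885.laR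
  split_ifs
  · push_cast
    rfl
  · rfl

theorem core (θ : ℕ → ℝ) (hθ : Pool.Agent.Y885.Fine θ) (s κ B T : ℕ) (μ : Fin s → Measure ℝ)
    [∀ i, IsProbabilityMeasure (μ i)]
    (hμ : ∀ i, SelfSim (μ i) ∨ FourLp (μ i)) (a : ℕ → ℝ) (ρ : ℝ) (hρ : 0 < ρ)
    (ha : ∀ᶠ k : ℕ in atTop, 0 < a k ∧ (k : ℝ) ^ ρ ≤ Real.log (a k))
    (Y : ℕ → Finset (Fin s → ℝ)) (hY : ∀ᶠ k : ℕ in atTop, (Y k).card ≤ k ^ T ∧ ∀ y ∈ Y k, ∀ i, |y i| ≤ B * a k)
    (L : ℕ → ℕ) (hL : ∀ᶠ k : ℕ in atTop, (L k : ℝ) ≤ Real.log (a k) ^ κ)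
    (α : ∀ k, Fin (L k) → Fin s → ℕ) (hα : ∀ k l i, 1 ≤ α k l i)
    (g : ∀ k, Fin (L k) → ℕ → ℂ) (hg : ∀ᶠ k : ℕ in atTop, ∀ l, ∀ n : ℕ, (n : ℝ) ≤ B * a k →
      ‖g k l n‖ ≤ Real.log (a k) ^ κ)
    (f : ∀ k, Fin (L k) → Fin s → ℤ → ℂ)
    (hf : ∀ C : ℕ, ∀ᶠ k : ℕ in atTop, ∀ l i, ∀ m : ℤ, |(m : ℝ)| ≤ C * a k →
      ‖f k l i m‖ ≤ Real.log (a k) ^ κ) :
    ∀ᵐ x ∂(Measure.pi μ), ∀ A U : ℕ, ∀ᶠ k : ℕ in atTop, ∀ y ∈ Y k, ∀ h : Fin s → ℤ,
      (∀ i, |(h i : ℝ) - (a k * x i + y i)| ≤ Real.log (a k) ^ A) → ∀ l : Fin (L k), ∀ i₀ : Fin s,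
      f k l i₀ = Pool.Agent.H373R2.T7.exI (fun n => ((θ n : ℝ) : ℂ)) →
      ∀ N : ℕ, (∀ i, (α k l i : ℝ) * N ≤ B * a k) →
      ‖∑ n ∈ Icc 1 N, g k l n * ∏ i, f k l i (α k l i * n + h i)‖ ≤ a k / Real.log (a k) ^ U := by
  classical
  have hevC : ∀ C : ℕ, ∀ᶠ k : ℕ in atTop, (s : ℝ) + B + C + 4 ≤ Real.log (a k) ∧ 1 ≤ Real.log (a k) ∧ 1 < a k :=
    fun C => sizes_ev a ρ hρ ha ((s : ℝ) + B + C + 4)
  have hYB : ∀ᶠ k : ℕ in atTop, (Y k).card ≤ k ^ T ∧ ∀ y ∈ Y k, ∀ i, |y i| ≤ ((B + 2 : ℕ) : ℝ) * a k := by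
    filter_upwards [hY, ha] with k h h1
    refine ⟨h.1, fun y hy i => (h.2 y hy i).trans (mul_le_mul_of_nonneg_right ?_ (by linarith))⟩
    push_cast
    linarith
  have key := fun C : ℕ => as_fine θ hθ s (κ + κ * s + 1) μ hμ a ρ hρ ha (B + 2) T Y
    hYB (fun k => ⌈((B : ℝ) + 1) * a k⌉₊)
    (by
      filter_upwards [hevC C] with k h
      have hB0 : (0 : ℝ) ≤ B := Nat.cast_nonneg _
      have hC0 : (0 : ℝ) ≤ C := Nat.cast_nonneg _
      have hs0 : (0 : ℝ) ≤ s := Nat.cast_nonneg _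
      obtain ⟨h4, h5, _, _⟩ := size_cmp B (a k) h.2.2 h.2.1 (by linarith [h.1])
      push_cast
      refine ⟨h4.trans ?_, h5⟩
      have : (0 : ℝ) ≤ ⌈((B : ℝ) + 1) * a k⌉₊ := Nat.cast_nonneg _
      nlinarith)
    (fun k => Fin (L k) × Fin s) (fun _ q => q.2) (fun k q => α k q.1 q.2)
    (fun k q n h => if (∀ j, |(h j : ℝ)| ≤ C * a k) ∧ (∀ j, (α k q.1 j : ℝ) * n ≤ B * a k) then
      g k q.1 n * ∏ j ∈ univ.erase q.2, f k q.1 j (α k q.1 j * n + h j) else 0)
    (by
      filter_upwards [hevC C, hL] with k h h1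
      have hB0 : (0 : ℝ) ≤ B := Nat.cast_nonneg _
      have hC0 : (0 : ℝ) ≤ C := Nat.cast_nonneg _
      have hs0 : (0 : ℝ) ≤ s := Nat.cast_nonneg _
      obtain ⟨_, _, h6, _⟩ := size_cmp B (a k) h.2.2 h.2.1 (by linarith [h.1])
      rw [Fintype.card_prod, Fintype.card_fin, Fintype.card_fin]
      push_cast
      have h7 : (s : ℝ) ≤ Real.log (a k) := by linarith [h.1]
      calc (L k : ℝ) * (s : ℝ) ≤ Real.log (a k) ^ κ * Real.log (a k) :=
            mul_le_mul h1 h7 hs0 (pow_nonneg (by linarith [h.2.1]) _)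
        _ = Real.log (a k) ^ (κ + 1) := by rw [pow_succ]
        _ ≤ Real.log (a k) ^ (κ + κ * s + 1) := pow_le_pow_right₀ h.2.1 (by nlinarith [Nat.zero_le (κ * s)])
        _ ≤ _ := pow_le_pow_left₀ (by linarith [h.2.1]) h6 _)
    (Eventually.of_forall fun _ _ => hα _ _ _)
    (by
      filter_upwards [hevC C, hg, hf (B + C)] with k h h1 h2 q n h' hn1 hn2
      have hB0 : (0 : ℝ) ≤ B := Nat.cast_nonneg _
      have hC0 : (0 : ℝ) ≤ C := Nat.cast_nonneg _
      have hs0 : (0 : ℝ) ≤ s := Nat.cast_nonneg _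
      obtain ⟨h4, h5, h6, _⟩ := size_cmp B (a k) h.2.2 h.2.1 (by linarith [h.1])
      have hl1 := h.2.1
      have ha1 := h.2.2
      have hpos : 0 ≤ Real.log (⌈((B : ℝ) + 1) * a k⌉₊ : ℝ) := by linarith
      split_ifs with hC
      · rw [norm_mul, norm_prod]
        have hnB : (n : ℝ) ≤ B * a k := by
          refine le_trans ?_ (hC.2 q.2)
          have e1 : (1 : ℝ) ≤ α k q.1 q.2 := by exact_mod_cast hα k q.1 q.2
          nlinarith [(Nat.cast_nonneg n : (0 : ℝ) ≤ n)]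
        have hv : ∀ j ∈ univ.erase q.2, ‖f k q.1 j (α k q.1 j * n + h' j)‖ ≤ Real.log (a k) ^ κ := by
          intro j _
          apply h2
          push_cast
          refine (abs_add_le _ _).trans ?_
          have e1 := hC.1 j
          have e2 := hC.2 j
          rw [abs_of_nonneg (by positivity)]
          linarith
        calc ‖g k q.1 n‖ * ∏ j ∈ univ.erase q.2, ‖f k q.1 j (α k q.1 j * n + h' j)‖ ≤
              Real.log (a k) ^ κ * ∏ _j ∈ univ.erase q.2, Real.log (a k) ^ κ := by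
              apply mul_le_mul (h1 _ _ hnB) _ (prod_nonneg fun _ _ => norm_nonneg _) (by positivity)
              exact prod_le_prod (fun _ _ => norm_nonneg _) hv
          _ ≤ Real.log (a k) ^ κ * (Real.log (a k) ^ κ) ^ s := by
              apply mul_le_mul_of_nonneg_left _ (by positivity)
              rw [prod_const]
              apply pow_le_pow_right₀ (one_le_pow₀ hl1)
              exact (card_le_univ _).trans (le_of_eq (by simp))
          _ = Real.log (a k) ^ (κ + κ * s) := by rw [← pow_mul, ← pow_add]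
          _ ≤ Real.log (a k) ^ (κ + κ * s + 1) := pow_le_pow_right₀ hl1 (by omega)
          _ ≤ _ := pow_le_pow_left₀ (by linarith) h6 _
      · rw [norm_zero]
        exact pow_nonneg hpos _)
  filter_upwards [ae_all_iff.2 key] with x hx A U
  obtain ⟨C, hCx⟩ := exists_nat_ge (∑ i, |x i| + B + 1)
  have hsmall : ∀ᶠ k : ℕ in atTop, Real.log (a k) ^ A ≤ a k := by
    have h1 : Tendsto (fun t : ℝ => t ^ A / Real.exp t) atTop (nhds 0) := by
      have := Real.tendsto_pow_mul_exp_neg_atTop_nhds_zero A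
      refine this.congr fun t => ?_
      rw [Real.exp_neg]
      rfl
    have h2 : Tendsto (fun k : ℕ => (k : ℝ) ^ ρ) atTop atTop := (tendsto_rpow_atTop hρ).comp tendsto_natCast_atTop_atTop
    have h3 : Tendsto (fun k => Real.log (a k)) atTop atTop :=
      tendsto_atTop_mono' atTop (ha.mono fun k h => h.2) h2
    filter_upwards [(h1.comp h3).eventually_le_const (show (0 : ℝ) < 1 by norm_num), ha] with k h4 h5
    simp only [Function.comp] at h4
    rw [Real.exp_log h5.1, div_le_one h5.1] at h4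
    exact h4
  filter_upwards [hx C A (U + 1), hevC C, hY, hsmall] with k hk h hYk hsm y hy hh hnear l i hi N hN
  have hB0 : (0 : ℝ) ≤ B := Nat.cast_nonneg _
  have hC0 : (0 : ℝ) ≤ C := Nat.cast_nonneg _
  have hs0 : (0 : ℝ) ≤ s := Nat.cast_nonneg _
  obtain ⟨h4, h5, h6, h7⟩ := size_cmp B (a k) h.2.2 h.2.1 (by linarith [h.1])
  have ha0 : 0 < a k := by linarith [h.2.2]
  have hhC : ∀ j, |((Function.update hh i 0 j : ℤ) : ℝ)| ≤ C * a k := by
    intro j
    by_cases hj : j = i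
    · subst hj
      rw [Function.update_self]
      simp only [Int.cast_zero, abs_zero]
      positivity
    · rw [Function.update_of_ne hj]
      have e1 := hnear j
      have e2 := hYk.2 y hy j
      have e3 : |x j| ≤ ∑ i, |x i| := single_le_sum (f := fun i => |x i|) (fun _ _ => abs_nonneg _) (mem_univ j)
      calc |(hh j : ℝ)| = |((hh j : ℝ) - (a k * x j + y j)) + (a k * x j + y j)| := by congr 1; ring
        _ ≤ |(hh j : ℝ) - (a k * x j + y j)| + (|a k * x j| + |y j|) :=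
            (abs_add_le _ _).trans (add_le_add le_rfl (abs_add_le _ _))
        _ ≤ a k + (a k * |x j| + B * a k) := by
            rw [abs_mul, abs_of_pos ha0]
            linarith
        _ = (|x j| + B + 1) * a k := by ring
        _ ≤ C * a k := mul_le_mul_of_nonneg_right (by linarith) ha0.le
  have h8 := hk y hy hh hnear (l, i) N (by
    apply Nat.cast_le.1 (le_trans _ _ : ((α k l i * N : ℕ) : ℝ) ≤ _)
    · exact B * a k
    · push_cast
      exact hN i
    · refine le_trans ?_ (Nat.le_ceil _)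
      nlinarith [h.2.2])
  refine le_trans (le_of_eq ?_) (h8.trans (h7 U))
  congr 1
  apply sum_congr rfl
  intro n hn
  have hn2 := (mem_Icc.1 hn).2
  have hn3 : ∀ j, (α k l j : ℝ) * n ≤ B * a k := fun j =>
    (mul_le_mul_of_nonneg_left (Nat.cast_le.2 hn2) (Nat.cast_nonneg _)).trans (hN j)
  simp only
  rw [if_pos ⟨hhC, hn3⟩, ← prod_erase_mul univ _ (mem_univ i), hi, mul_assoc]
  congr 2
  · apply prod_congr rfl
    intro j hj
    rw [Function.update_of_ne (ne_of_mem_erase hj)]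

/-- Let `μ 1, ..., μ s` be probability measures on the line, each of which is self-similar and not a point mass, or
has a Fourier transform which belongs to some `L^q`, `q < ∞`. Let `a 1, a 2, ...` be positive real numbers with
`log (a k) ≥ k ^ ρ` for large `k`, where `ρ > 0`, and let `Y k` be arbitrary sets of at most `k ^ T` vectors `y` with
`|y i| ≤ B a k`. For each `k` let at most `log (a k) ^ κ` tuples `(g, α, f)` be given, where `g` is an arbitrary function
bounded by `log (a k) ^ κ` on `[1, B a k]` (for example the von Mangoldt function), the `α i` are positive integers, and `f 1, ..., f s`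
are arbitrary functions on the integers which for every constant `C` and all large `k` are bounded by
`log (a k) ^ κ` on `[-C a k, C a k]`. Then almost every point `x` with respect to the product measure has the following
property. For all `A` and `U`, for all large `k`, all `y` in `Y k`, all integers `h 1, ..., h s` with
`|h i - (a k * x i + y i)| ≤ log (a k) ^ A`, all the given tuples for which one of `f 1, ..., f s` (only one is needed,
the others are arbitrary) is the Möbius function or the Liouville function, and all `N` with `α i * N ≤ B a k`, the sum of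
`g n * f 1 (α 1 * n + h 1) ⋯ f s (α s * n + h s)` over `n ≤ N` is at most `a k / log (a k) ^ U` in absolute value.
(For `s = 1`, `g = Λ`, `α = 1` and `f = μ` this is the correlation `∑ n ≤ N, Λ (n) μ (n + h)`.) -/
theorem result (s κ B T : ℕ) (μ : Fin s → Measure ℝ) [∀ i, IsProbabilityMeasure (μ i)]
    (hμ : ∀ i, SelfSim (μ i) ∨ FourLp (μ i)) (a : ℕ → ℝ) (ρ : ℝ) (hρ : 0 < ρ)
    (ha : ∀ᶠ k : ℕ in atTop, 0 < a k ∧ (k : ℝ) ^ ρ ≤ Real.log (a k))
    (Y : ℕ → Finset (Fin s → ℝ)) (hY : ∀ᶠ k : ℕ in atTop, (Y k).card ≤ k ^ T ∧ ∀ y ∈ Y k, ∀ i, |y i| ≤ B * a k)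
    (L : ℕ → ℕ) (hL : ∀ᶠ k : ℕ in atTop, (L k : ℝ) ≤ Real.log (a k) ^ κ)
    (g : ∀ k, Fin (L k) → ℕ → ℂ) (hg : ∀ᶠ k : ℕ in atTop, ∀ l, ∀ n : ℕ, (n : ℝ) ≤ B * a k →
      ‖g k l n‖ ≤ Real.log (a k) ^ κ)
    (α : ∀ k, Fin (L k) → Fin s → ℕ) (hα : ∀ k l i, 1 ≤ α k l i)
    (f : ∀ k, Fin (L k) → Fin s → ℤ → ℂ)
    (hf : ∀ C : ℕ, ∀ᶠ k : ℕ in atTop, ∀ l i, ∀ m : ℤ, |(m : ℝ)| ≤ C * a k →
      ‖f k l i m‖ ≤ Real.log (a k) ^ κ) :
    ∀ᵐ x ∂(Measure.pi μ), ∀ A U : ℕ, ∀ᶠ k : ℕ in atTop, ∀ y ∈ Y k, ∀ h : Fin s → ℤ,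
      (∀ i, |(h i : ℝ) - (a k * x i + y i)| ≤ Real.log (a k) ^ A) →
      ∀ l : Fin (L k), (∃ i, f k l i = mob ∨ f k l i = lam) → ∀ N : ℕ, (∀ i, (α k l i : ℝ) * N ≤ B * a k) →
      ‖∑ n ∈ Icc 1 N, g k l n * ∏ i, f k l i (α k l i * n + h i)‖ ≤ a k / Real.log (a k) ^ U := by
  filter_upwards [core _ Pool.Agent.Y885.fine_mu s κ B T μ hμ a ρ hρ ha Y hY L hL α hα g hg f hf,
    core _ Pool.Agent.Y885.fine_lam s κ B T μ hμ a ρ hρ ha Y hY L hL α hα g hg f hf] with x h1 h2 A U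
  filter_upwards [h1 A U, h2 A U] with k h3 h4 y hy h hh l hl N hN
  obtain ⟨i, hi | hi⟩ := hl
  · exact h3 y hy h hh l i (hi.trans mob_eq) N hN
  · exact h4 y hy h hh l i (hi.trans lam_eq) N hN

end Pool.Agent.Results.MP_0bfb7f_nt.TypicalShifts
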