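import Pool.Agent.Q197.PS.P

/-! # The Moebius function at shifted primes in random unions of reduced residue classes

For `|f| ≤ 1` and a set `A` of reduced residues modulo `P` consider the mean over `n ≤ N` of
`Λ(n) f(n + 1)`, restricted to the `n` with residue modulo `P` in `A`; for `f = μ` and all `n` this is
the sum `S(N + 1) / N` of the problem. (1) The means tend to zero for all single reduced classes of all
moduli iff, for arbitrarily divisible `P`, they do for at least `K 2 ^ φ(P) / √φ(P)` of the sets `A`,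
for every `K`. (2) If the mean over all `n` (or over one class modulo a divisor of `P`) is at least `c`
infinitely often, then this is true for at most `C (1 + 1 / c) 2 ^ φ(P) / √φ(P)` of the sets `A`, with
an absolute constant `C`. (3) For all but a proportion `1 / t ^ 2` of the sets `A` the mean is half the
full mean up to `t C / √φ(P)`, for all large `N`. (4) So `S(X) = o(X)` follows if for every `K` there is
a `P` such that the sums over `K 2 ^ φ(P) / √φ(P)` of the unions are `o(X)`. -/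

set_option autoImplicit false

open Finset Filter Topology

namespace Pool.Agent.Results.MP_0bfb7f_nt.UnionsOfReducedClasses

/-- The residues `a < P` coprime to `P`; there are `φ(P)` of them. -/
def reduced (P : ℕ) : Finset ℕ := (range P).filter (fun a => P.Coprime a)

/-- `1 / N` times the sum of the `Λ(n) f(n + 1)` over the `1 ≤ n ≤ N` with `n mod P ∈ A`. -/
noncomputable def mean (f : ℕ → ℝ) (P : ℕ) (A : Finset ℕ) (N : ℕ) : ℝ :=
  (∑ n ∈ (Icc 1 N).filter (fun n => n % P ∈ A), ArithmeticFunction.vonMangoldt n * f (n + 1)) / N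

/-- `1 / N` times the sum of the `Λ(n) f(n + 1)` over all `1 ≤ n ≤ N`. -/
noncomputable def full (f : ℕ → ℝ) (N : ℕ) : ℝ :=
  (∑ n ∈ Icc 1 N, ArithmeticFunction.vonMangoldt n * f (n + 1)) / N

open Classical in
/-- The number of the sets `A` of reduced residues modulo `P` with mean tending to zero. -/
noncomputable def good (f : ℕ → ℝ) (P : ℕ) : ℕ :=
  ((reduced P).powerset.filter (fun A => Tendsto (mean f P A) atTop (𝓝 0))).card

/-- The Moebius function with real values. -/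
noncomputable def mob (n : ℕ) : ℝ := (ArithmeticFunction.moebius n : ℝ)

lemma mob_le (n : ℕ) : |mob n| ≤ 1 := by
  unfold mob
  rcases ArithmeticFunction.moebius_eq_or n with h | h | h <;> rw [h] <;> norm_num

lemma full_eq (f : ℕ → ℝ) (N : ℕ) : full f N = mean f 1 {0} N := by
  unfold full mean
  congr 2
  rw [filter_true_of_mem]
  intro n _
  rw [mem_singleton, Nat.mod_one]

open Classical in
theorem result :
    (∀ f : ℕ → ℝ, (∀ n, |f n| ≤ 1) →
      ((∀ q : ℕ, 0 < q → ∀ a ∈ reduced q, Tendsto (mean f q {a}) atTop (𝓝 0)) ↔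
      ∀ q : ℕ, 0 < q → ∀ K : ℝ, ∃ P : ℕ, 0 < P ∧ q ∣ P ∧
        K * 2 ^ P.totient / √P.totient ≤ good f P)) ∧
    (∃ C : ℝ, 1 ≤ C ∧ ∀ f : ℕ → ℝ, (∀ n, |f n| ≤ 1) →
      (∀ c : ℝ, 0 < c → (∃ᶠ N in atTop, c ≤ |full f N|) → ∀ P : ℕ, 0 < P →
        (good f P : ℝ) ≤ C * (1 + 1 / c) * 2 ^ P.totient / √P.totient) ∧
      (∀ c : ℝ, 0 < c → ∀ q a : ℕ, (∃ᶠ N in atTop, c ≤ |mean f q {a} N|) → ∀ P : ℕ, 0 < P → q ∣ P →
        (good f P : ℝ) ≤ C * (1 + 1 / c) * 2 ^ P.totient / √P.totient) ∧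
      (∀ P : ℕ, 0 < P → ∀ᶠ N : ℕ in atTop, ∀ t : ℝ, 0 < t →
        (((reduced P).powerset.filter (fun A =>
          t * C / √P.totient ≤ |mean f P A N - full f N / 2|)).card : ℝ) ≤ 2 ^ P.totient / t ^ 2)) ∧
    ((∀ K : ℝ, ∃ P : ℕ, 0 < P ∧ K * 2 ^ P.totient / √P.totient ≤ good mob P) →
      Tendsto (full mob) atTop (𝓝 0)) := by
  have hg : ∀ f : ℕ → ℝ, (∀ n, |f n| ≤ 1) → ∀ n, |(fun n => f (n + 1)) n| ≤ 1 := fun f hf n => hf _
  obtain ⟨C1, hC1, h1⟩ := Q197.PS.few_red
  obtain ⟨C2, hC2, h2⟩ := Q197.PS.typical_red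
  have hgood : ∀ f : ℕ → ℝ, ∀ P, good f P = Q197.PS.nRed (fun n => f (n + 1)) P := fun _ _ => rfl
  have hfew : ∀ f : ℕ → ℝ, (∀ n, |f n| ≤ 1) → ∀ c : ℝ, 0 < c →
      ∀ (q : ℕ) (A : Finset ℕ), (∃ᶠ N in atTop, c ≤ |mean f q A N|) → ∀ P : ℕ, 0 < P → q ∣ P →
      (good f P : ℝ) ≤ C1 * (1 + 1 / c) * 2 ^ P.totient / √P.totient :=
    fun f hf c hc q A hfr P hP hd => h1 (fun n => f (n + 1)) (hg f hf) c hc q A hfr P hP hd
  have hmax : ∀ f : ℕ → ℝ, (∀ n, |f n| ≤ 1) → ∀ c : ℝ, 0 < c →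
      ∀ (q : ℕ) (A : Finset ℕ), (∃ᶠ N in atTop, c ≤ |mean f q A N|) → ∀ P : ℕ, 0 < P → q ∣ P →
      (good f P : ℝ) ≤ max C1 C2 * (1 + 1 / c) * 2 ^ P.totient / √P.totient := by
    intro f hf c hc q A hfr P hP hd
    refine (hfew f hf c hc q A hfr P hP hd).trans ?_
    have hc1 : 0 < 1 + 1 / c := by positivity
    have h3 := le_max_left C1 C2
    gcongr
  refine ⟨fun f hf => Q197.PS.red_iff (hg f hf), ⟨max C1 C2, hC1.trans (le_max_left _ _), fun f hf =>
    ⟨fun c hc hfr P hP => ?_, fun c hc q a hfr P hP hd => hmax f hf c hc q {a} hfr P hP hd,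
    fun P hP => ?_⟩⟩, ?_⟩
  · refine hmax f hf c hc 1 {0} ?_ P hP (one_dvd P)
    simp only [full_eq] at hfr
    exact hfr
  · filter_upwards [h2 (fun n => f (n + 1)) (hg f hf) P hP] with N hN t ht
    refine le_trans ?_ (hN t ht)
    have hsub : (reduced P).powerset.filter (fun A =>
        t * max C1 C2 / √P.totient ≤ |mean f P A N - full f N / 2|) ⊆
        (Q197.PS.red P).powerset.filter (fun A => t * C2 / √P.totient ≤
          |Q197.PS.mL (fun n => f (n + 1)) P A N - Q197.PS.mL (fun n => f (n + 1)) 1 {0} N / 2|) := by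
      intro A hA
      rw [mem_filter] at hA ⊢
      refine ⟨hA.1, le_trans ?_ (le_trans hA.2 (le_of_eq ?_))⟩
      · have h3 := le_max_right C1 C2
        gcongr
      · rw [full_eq]
        rfl
    exact_mod_cast card_le_card hsub
  · intro h
    by_contra hcon
    obtain ⟨c, hc, hfr⟩ := Q197.PS.not_tendsto_gen hcon
    simp only [full_eq] at hfr
    obtain ⟨P, hP, h3⟩ := h (2 * (C1 * (1 + 1 / c)))
    have h4 := h3.trans (hfew mob mob_le c hc 1 {0} hfr P hP (one_dvd P))
    have hpos : (0 : ℝ) < P.totient := by exact_mod_cast Nat.totient_pos.2 hP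
    rw [div_le_div_iff_of_pos_right (Real.sqrt_pos.2 hpos)] at h4
    have h5 : (0 : ℝ) < C1 * (1 + 1 / c) * 2 ^ P.totient := by positivity
    linarith

end Pool.Agent.Results.MP_0bfb7f_nt.UnionsOfReducedClasses
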